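import Pool.Agent.H81.D3.Targets

/-!
# Row GSC of d3n_modules: the children
-/

set_option autoImplicit false

namespace Pool.Agent.H98.D3

open MeasureTheory Set
open Pool.Agent.H83.G
open Pool.Agent.H81.D3
open scoped ENNReal NNReal RealInnerProductSpace

/-- a cap of a plank and a plank of its wave packet decomposition -/
abbrev Om2 := Σ _ : Tq, Pk 2

/-- an incidence and a plank -/
abbrev Th2 := Σ _ : Z 2 × Pq, Pk 2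

theorem card_fib {α β : Type} [DecidableEq β] (s : Finset α) (f : α → β) (T : Finset β)
    (c m : ℝ) (h0 : 0 ≤ c) (hT : ∀ a ∈ s, f a ∈ T) (hm : (T.card : ℝ) ≤ m)
    (hc : ∀ b ∈ T, ((s.filter fun a => f a = b).card : ℝ) ≤ c) : (s.card : ℝ) ≤ m * c := by
  have h1 : s.card = ∑ b ∈ T, (s.filter fun a => f a = b).card :=
    Finset.card_eq_sum_card_fiberwise hT
  have h2 : (s.card : ℝ) = ∑ b ∈ T, ((s.filter fun a => f a = b).card : ℝ) := by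
    rw [h1]
    push_cast
    rfl
  rw [h2]
  calc ∑ b ∈ T, ((s.filter fun a => f a = b).card : ℝ) ≤ ∑ _b ∈ T, c := Finset.sum_le_sum hc
    _ = T.card * c := by rw [Finset.sum_const, nsmul_eq_mul]
    _ ≤ m * c := mul_le_mul_of_nonneg_right hm h0

theorem card_inj {α β : Type} [DecidableEq β] (s : Finset α) (f : α → β)
    (c : ℝ) (hf : Set.InjOn f s) (hc : ∀ T : Finset β, (∀ b ∈ T, ∃ a ∈ s, f a = b) →
      (T.card : ℝ) ≤ c) : (s.card : ℝ) ≤ c := by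
  rw [← Finset.card_image_of_injOn hf]
  exact hc _ fun b hb => Finset.mem_image.1 hb

/-- the planks of the children -/
theorem kids (K : ℕ) (Ω : Finset Om2) (xw : Om2 → Z 2)
    (hmax : ∀ Y : Finset (Z 2), ∃ Y' ⊆ Y, Sep Y' ∧ ∀ z ∈ Y, ∃ z' ∈ Y', ‖z - z'‖ ≤ 1) :
    ∃ (P' : Finset Pq) (f : Om2 → Pq), PSep P' ∧
      (∀ p ∈ P', ∃ ω ∈ Ω, ω.1.1 = p.1 ∧ p.2.1 = (K : ℤ) • ω.1.2 + ω.2.1 ∧ xw ω = p.2.2) ∧
      ∀ ω ∈ Ω, f ω ∈ P' ∧ (f ω).1 = ω.1.1 ∧ (f ω).2.1 = (K : ℤ) • ω.1.2 + ω.2.1 ∧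
        ‖xw ω - (f ω).2.2‖ ≤ 1 := by
  classical
  obtain ⟨j, hj⟩ : ∃ j : Om2 → Tq, ∀ ω, j ω = (ω.1.1, (K : ℤ) • ω.1.2 + ω.2.1) :=
    ⟨fun ω => (ω.1.1, (K : ℤ) • ω.1.2 + ω.2.1), fun _ => rfl⟩
  have hY : ∀ i : Tq, ∃ Y : Finset (Z 2), Y ⊆ ((Ω.filter fun ω => j ω = i).image xw) ∧ Sep Y ∧
      ∀ z ∈ ((Ω.filter fun ω => j ω = i).image xw), ∃ z' ∈ Y, ‖z - z'‖ ≤ 1 := fun i => hmax _
  choose Y hY1 hY2 hY3 using hY
  obtain ⟨P', hP'⟩ : ∃ P' : Finset Pq, P' = (Ω.image j).biUnion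
    fun i => (Y i).image fun x => (i.1, i.2, x) := ⟨_, rfl⟩
  have hP'mem : ∀ p : Pq, p ∈ P' ↔ p.2.2 ∈ Y (p.1, p.2.1) := by
    intro p
    rw [hP']
    constructor
    · intro hp
      obtain ⟨i, -, hi⟩ := Finset.mem_biUnion.1 hp
      obtain ⟨x, hx, rfl⟩ := Finset.mem_image.1 hi
      exact hx
    · intro hp
      obtain ⟨ω, hω, hωx⟩ := Finset.mem_image.1 (hY1 _ hp)
      obtain ⟨hω1, hω2⟩ := Finset.mem_filter.1 hω
      exact Finset.mem_biUnion.2 ⟨(p.1, p.2.1), Finset.mem_image.2 ⟨ω, hω1, hω2⟩,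
        Finset.mem_image.2 ⟨p.2.2, hp, rfl⟩⟩
  have hfex : ∀ ω : Om2, ∃ p : Pq, ω ∈ Ω → p ∈ P' ∧ p.1 = ω.1.1 ∧
      p.2.1 = (K : ℤ) • ω.1.2 + ω.2.1 ∧ ‖xw ω - p.2.2‖ ≤ 1 := by
    intro ω
    by_cases hω : ω ∈ Ω
    · obtain ⟨x', hx', hd⟩ := hY3 (j ω) (xw ω)
        (Finset.mem_image.2 ⟨ω, Finset.mem_filter.2 ⟨hω, rfl⟩, rfl⟩)
      rw [hj] at hx'
      exact ⟨(ω.1.1, (K : ℤ) • ω.1.2 + ω.2.1, x'), fun _ =>
        ⟨(hP'mem _).2 hx', rfl, rfl, hd⟩⟩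
    · exact ⟨(0, 0, 0), fun h => absurd h hω⟩
  choose f hf using hfex
  refine ⟨P', f, ?_, ?_, hf⟩
  · intro p hp p' hp' hne h4 h5
    have h6 := (hP'mem p).1 hp
    have h7 := (hP'mem p').1 hp'
    rw [← h4, ← h5] at h7
    exact hY2 _ _ h6 _ h7 fun h8 => hne (Prod.ext h4 (Prod.ext h5 h8))
  · intro p hp
    obtain ⟨ω, hω, hωx⟩ := Finset.mem_image.1 (hY1 _ ((hP'mem p).1 hp))
    obtain ⟨hω1, hω2⟩ := Finset.mem_filter.1 hω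
    rw [hj] at hω2
    exact ⟨ω, hω1, congrArg Prod.fst hω2, (congrArg Prod.snd hω2).symm, hωx⟩

/-- the fibre over an incidence of a child -/
theorem fib1 (CM CT CN D b8 : ℝ) (K : ℕ) (nr : Pk 2 → Z 2 → Prop) (Lw : (Fin 2 → ℤ) → Z 2 → Z 2)
    (hD1 : 1 ≤ D) (hCN : 0 ≤ CN) (hCT : 0 ≤ CT) (hb8 : 0 ≤ b8) (F : Finset Th2) (z : Z 2)
    (t κ' : Fin 2 → ℤ) (hF1 : ∀ θ ∈ F, θ.1.1 = z) (hF2 : ∀ θ ∈ F, θ.1.2.1 = t)
    (hF3 : ∀ θ ∈ F, κ' = (K : ℤ) • θ.1.2.2.1 + θ.2.1) (hF4 : ∀ θ ∈ F, nr θ.2 θ.1.2.2.2)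
    (hF5 : ∀ θ ∈ F, θ.2.1 ∈ Ks 2 (K : ℝ)⁻¹)
    (hF6 : ∀ θ ∈ F, ‖Lw θ.1.2.2.1 θ.1.1 - θ.1.2.2.2‖ ≤ D)
    (hF7 : ∀ θ ∈ F, ∀ θ' ∈ F, θ.1.2 ≠ θ'.1.2 → θ.1.2.1 = θ'.1.2.1 → θ.1.2.2.1 = θ'.1.2.2.1 →
      1 ≤ ‖θ.1.2.2.2 - θ'.1.2.2.2‖)
    (hpar : ∀ (J : Finset (Fin 2 → ℤ)),
      (∀ κ ∈ J, ∃ k ∈ Ks 2 (K : ℝ)⁻¹, κ' = (K : ℤ) • κ + k) → (J.card : ℝ) ≤ CM)
    (hball : ∀ (x : Z 2) (Y : Finset (Z 2)), Sep Y → (∀ z ∈ Y, ‖z - x‖ ≤ D) →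
      (Y.card : ℝ) ≤ CT * D ^ 4)
    (hnear : ∀ (z : Z 2) (k : Fin 2 → ℤ) (S : Finset (Pk 2)), (∀ W ∈ S, W.1 = k ∧ nr W z) →
      (S.card : ℝ) ≤ CN * b8) : (F.card : ℝ) ≤ CM * (CT * D ^ 4 * (CN * b8)) := by
  classical
  refine card_fib F (fun θ => θ.1.2.2.1) (F.image fun θ => θ.1.2.2.1) _ CM (by positivity)
    (fun θ hθ => Finset.mem_image_of_mem _ hθ) ?_ ?_
  · refine hpar _ fun κ hκ => ?_
    obtain ⟨θ, hθ, rfl⟩ := Finset.mem_image.1 hκ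
    exact ⟨θ.2.1, hF5 θ hθ, hF3 θ hθ⟩
  · intro κ _
    obtain ⟨F1, hF1'⟩ : ∃ F1, F1 = F.filter fun θ => θ.1.2.2.1 = κ := ⟨_, rfl⟩
    have m1 : ∀ θ ∈ F1, θ ∈ F ∧ θ.1.2.2.1 = κ := fun θ hθ => by
      rw [hF1'] at hθ
      exact Finset.mem_filter.1 hθ
    rw [← hF1']
    refine card_fib F1 (fun θ => θ.1.2.2.2) (F1.image fun θ => θ.1.2.2.2) _ _ (by positivity)
      (fun θ hθ => Finset.mem_image_of_mem _ hθ) ?_ ?_
    · refine hball (Lw κ z) _ ?_ ?_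
      · intro x hx x' hx' hne
        obtain ⟨θ, hθ, rfl⟩ := Finset.mem_image.1 hx
        obtain ⟨θ', hθ', rfl⟩ := Finset.mem_image.1 hx'
        obtain ⟨h6, h7⟩ := m1 θ hθ
        obtain ⟨h6', h7'⟩ := m1 θ' hθ'
        refine hF7 θ h6 θ' h6' (fun h10 => hne ?_) ((hF2 θ h6).trans (hF2 θ' h6').symm)
          (h7.trans h7'.symm)
        exact congrArg (fun p : Pq => p.2.2) h10
      · intro x hx
        obtain ⟨θ, hθ, rfl⟩ := Finset.mem_image.1 hx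
        obtain ⟨h6, h7⟩ := m1 θ hθ
        have h10 := hF6 θ h6
        rw [h7, hF1 θ h6] at h10
        rw [norm_sub_rev]
        exact h10
    · intro x _
      obtain ⟨F2, hF2'⟩ : ∃ F2, F2 = F1.filter fun θ => θ.1.2.2.2 = x := ⟨_, rfl⟩
      have m2 : ∀ θ ∈ F2, θ ∈ F1 ∧ θ.1.2.2.2 = x := fun θ hθ => by
        rw [hF2'] at hθ
        exact Finset.mem_filter.1 hθ
      rw [← hF2']
      refine card_inj F2 (fun θ => θ.2) _ ?_ ?_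
      · intro θ hθ θ' hθ' he
        obtain ⟨h6, h7⟩ := m2 θ (Finset.mem_coe.1 hθ)
        obtain ⟨h6', h7'⟩ := m2 θ' (Finset.mem_coe.1 hθ')
        obtain ⟨h8, h9⟩ := m1 θ h6
        obtain ⟨h8', h9'⟩ := m1 θ' h6'
        have h10 : θ.1 = θ'.1 := Prod.ext ((hF1 θ h8).trans (hF1 θ' h8').symm)
          (Prod.ext ((hF2 θ h8).trans (hF2 θ' h8').symm)
            (Prod.ext (h9.trans h9'.symm) (h7.trans h7'.symm)))
        exact Sigma.ext h10 (heq_of_eq he)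
      · intro T hT
        refine hnear x (κ' - (K : ℤ) • κ) T fun W hW => ?_
        obtain ⟨θ, hθ, rfl⟩ := hT W hW
        obtain ⟨h6, h7⟩ := m2 θ hθ
        obtain ⟨h8, h9⟩ := m1 θ h6
        have h11 := hF3 θ h8
        have h12 := hF4 θ h8
        rw [h7] at h12
        rw [h9] at h11
        exact ⟨by rw [h11]; abel, h12⟩

/-- the fibre over a child -/
theorem fib2 (CM CN b8 : ℝ) (K : ℕ) (nr : Pk 2 → Z 2 → Prop)
    (hCN : 0 ≤ CN) (hb8 : 0 ≤ b8) (F : Finset Om2) (t κ' : Fin 2 → ℤ)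
    (hF1 : ∀ ω ∈ F, ω.1.1 = t)
    (hF3 : ∀ ω ∈ F, κ' = (K : ℤ) • ω.1.2 + ω.2.1)
    (hF4 : ∀ ω₀ ∈ F, ∃ y, ∀ ω ∈ F, ω.2.1 = ω₀.2.1 → nr ω.2 y)
    (hF5 : ∀ ω ∈ F, ω.2.1 ∈ Ks 2 (K : ℝ)⁻¹)
    (hpar : ∀ (J : Finset (Fin 2 → ℤ)),
      (∀ κ ∈ J, ∃ k ∈ Ks 2 (K : ℝ)⁻¹, κ' = (K : ℤ) • κ + k) → (J.card : ℝ) ≤ CM)
    (hnear : ∀ (z : Z 2) (k : Fin 2 → ℤ) (S : Finset (Pk 2)), (∀ W ∈ S, W.1 = k ∧ nr W z) →
      (S.card : ℝ) ≤ CN * b8) : (F.card : ℝ) ≤ CM * (CN * b8) := by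
  classical
  refine card_fib F (fun ω => ω.1.2) (F.image fun ω => ω.1.2) _ CM (by positivity)
    (fun ω hω => Finset.mem_image_of_mem _ hω) ?_ ?_
  · refine hpar _ fun κ hκ => ?_
    obtain ⟨ω, hω, rfl⟩ := Finset.mem_image.1 hκ
    exact ⟨ω.2.1, hF5 ω hω, hF3 ω hω⟩
  · intro κ hκ
    obtain ⟨ω₀, hω₀, hω₀κ⟩ := Finset.mem_image.1 hκ
    obtain ⟨y, hy⟩ := hF4 ω₀ hω₀
    obtain ⟨F1, hF1'⟩ : ∃ F1, F1 = F.filter fun ω => ω.1.2 = κ := ⟨_, rfl⟩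
    have m1 : ∀ ω ∈ F1, ω ∈ F ∧ ω.1.2 = κ := fun ω hω => by
      rw [hF1'] at hω
      exact Finset.mem_filter.1 hω
    rw [← hF1']
    have h0 := hF3 ω₀ hω₀
    rw [hω₀κ] at h0
    refine card_inj F1 (fun ω => ω.2) _ ?_ ?_
    · intro ω hω ω' hω' he
      obtain ⟨h8, h9⟩ := m1 ω (Finset.mem_coe.1 hω)
      obtain ⟨h8', h9'⟩ := m1 ω' (Finset.mem_coe.1 hω')
      have h10 : ω.1 = ω'.1 := Prod.ext ((hF1 ω h8).trans (hF1 ω' h8').symm) (h9.trans h9'.symm)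
      exact Sigma.ext h10 (heq_of_eq he)
    · intro T hT
      refine hnear y (κ' - (K : ℤ) • κ) T fun W hW => ?_
      obtain ⟨ω, hω, rfl⟩ := hT W hW
      obtain ⟨h8, h9⟩ := m1 ω hω
      have h11 := hF3 ω h8
      rw [h9] at h11
      have h12 : ω.2.1 = κ' - (K : ℤ) • κ := by rw [h11]; abel
      refine ⟨h12, hy ω h8 ?_⟩
      rw [h12]
      nth_rewrite 1 [h0]
      abel

/-- the distance of a point to its child -/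
theorem dist_kid (b CM D : ℝ) (K : ℕ) (hb : 0 < b) (W : Pk 2) (u x xW x' : Z 2)
    (h1 : ‖Lc K W.1 u - Lc K W.1 x‖ ≤ CM * D)
    (h6 : ‖(b ^ 2)⁻¹ • Lc K W.1 x - zc W.2‖ ≤ b ^ 2)
    (h14 : ‖(b ^ 2)⁻¹ • xW - zc W.2‖ ≤ b) (h13 : ‖xW - x'‖ ≤ 1) :
    ‖Lc K W.1 u - x'‖ ≤ CM * D + (b ^ 4 + b ^ 3) + 1 := by
  have e2 : ‖(b ^ 2)⁻¹ • (Lc K W.1 x - xW)‖ ≤ b ^ 2 + b := by
    have e3 : (b ^ 2)⁻¹ • (Lc K W.1 x - xW) =
        ((b ^ 2)⁻¹ • Lc K W.1 x - zc W.2) - ((b ^ 2)⁻¹ • xW - zc W.2) := by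
      rw [smul_sub]
      abel
    rw [e3]
    exact (norm_sub_le _ _).trans (add_le_add h6 h14)
  have e4 : ‖Lc K W.1 x - xW‖ ≤ b ^ 4 + b ^ 3 := by
    rw [norm_smul, norm_inv, Real.norm_eq_abs, abs_of_pos (by positivity),
      inv_mul_le_iff₀ (by positivity)] at e2
    calc _ ≤ _ := e2
      _ = b ^ 4 + b ^ 3 := by ring
  have e5 : Lc K W.1 u - x' = (Lc K W.1 u - Lc K W.1 x) + (Lc K W.1 x - xW) +
      (xW - x') := by abel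
  rw [e5]
  exact (norm_add_le _ _).trans (add_le_add ((norm_add_le _ _).trans (add_le_add h1 e4)) h13)

/-- a child is near its planks -/
theorem near_kid (b : ℝ) (hb : 2 ≤ b) (c xW x' : Z 2)
    (h14 : ‖(b ^ 2)⁻¹ • xW - c‖ ≤ b) (h13 : ‖xW - x'‖ ≤ 1) :
    ‖(b ^ 2)⁻¹ • x' - c‖ ≤ b ^ 2 := by
  have e3 : (b ^ 2)⁻¹ • x' - c = ((b ^ 2)⁻¹ • xW - c) - (b ^ 2)⁻¹ • (xW - x') := by
    rw [smul_sub]
    abel
  rw [e3]
  refine (norm_sub_le _ _).trans ?_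
  have e4 : ‖(b ^ 2)⁻¹ • (xW - x')‖ ≤ 1 := by
    rw [norm_smul, norm_inv, Real.norm_eq_abs, abs_of_pos (by positivity),
      inv_mul_le_iff₀ (by positivity)]
    nlinarith
  nlinarith

/-- the exponents of PAM -/
theorem pam_num (K w N' : ℕ) (A R a H M δ CP y : ℝ) (hKr : (1 : ℝ) ≤ K) (hwr : (1 : ℝ) ≤ w)
    (hA : 0 < A) (hR : 1 ≤ R)
    (hδ : 0 < δ) (hM : 1 ≤ M) (hap : 0 < a) (_hHp : 0 < H) (hN' : 1 + 2 * (M + 50) / δ ≤ N')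
    (haH : (K : ℝ) ^ (-50 : ℝ) * H ≤ a) (hup : A * R ≤ (K : ℝ) ^ M * ((w : ℝ) ^ 2 * H))
    (hCP : CP ≤ (K : ℝ) ^ δ) (_hy : 0 ≤ y)
    (hx2 : (1 + y) ^ N' ≤ CP * (A * R / (((w : ℝ) * K) ^ 2 * a)) ^ 2) : y ≤ (K : ℝ) ^ δ := by
  have hKp : (0 : ℝ) < K := by linarith
  have hwp : (0 : ℝ) < w := by linarith
  have hbp : 0 < (K : ℝ) ^ δ := Real.rpow_pos_of_pos hKp _
  have hq : A * R / (((w : ℝ) * K) ^ 2 * a) ≤ (K : ℝ) ^ (M + 50) := by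
    have hwK0 : 0 < ((w : ℝ) * K) ^ 2 * a := by positivity
    rw [div_le_iff₀ hwK0]
    refine hup.trans ?_
    have e2 : H ≤ (K : ℝ) ^ (50 : ℝ) * a := by
      have e3 : (K : ℝ) ^ (50 : ℝ) * ((K : ℝ) ^ (-50 : ℝ) * H) = H := by
        rw [← mul_assoc, ← Real.rpow_add hKp]
        norm_num
      rw [← e3]
      exact mul_le_mul_of_nonneg_left haH (Real.rpow_pos_of_pos hKp _).le
    have e4 : (1 : ℝ) ≤ (K : ℝ) ^ 2 := one_le_pow₀ hKr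
    have e5 : 0 < (K : ℝ) ^ M := Real.rpow_pos_of_pos hKp _
    have e6 : 0 < (w : ℝ) ^ 2 := by positivity
    have e7 : 0 < (K : ℝ) ^ (50 : ℝ) * a := mul_pos (Real.rpow_pos_of_pos hKp _) hap
    calc (K : ℝ) ^ M * ((w : ℝ) ^ 2 * H) ≤
        (K : ℝ) ^ M * ((w : ℝ) ^ 2 * ((K : ℝ) ^ (50 : ℝ) * a)) :=
          mul_le_mul_of_nonneg_left (mul_le_mul_of_nonneg_left e2 e6.le) e5.le
      _ ≤ ((K : ℝ) ^ M * ((w : ℝ) ^ 2 * ((K : ℝ) ^ (50 : ℝ) * a))) * (K : ℝ) ^ 2 :=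
          le_mul_of_one_le_right (by positivity) e4
      _ = (K : ℝ) ^ (M + 50) * (((w : ℝ) * K) ^ 2 * a) := by
          rw [Real.rpow_add hKp]
          ring
  have hq0 : 0 ≤ A * R / (((w : ℝ) * K) ^ 2 * a) := by positivity
  have hpow : (1 + y) ^ N' ≤ ((K : ℝ) ^ δ) ^ N' := by
    refine hx2.trans ?_
    have e1 : (A * R / (((w : ℝ) * K) ^ 2 * a)) ^ 2 ≤ ((K : ℝ) ^ (M + 50)) ^ 2 :=
      pow_le_pow_left₀ hq0 hq 2
    have e2 : ((K : ℝ) ^ δ) ^ N' = (K : ℝ) ^ (δ * N') := by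
      rw [← Real.rpow_natCast, ← Real.rpow_mul hKp.le]
    have e3 : ((K : ℝ) ^ (M + 50)) ^ 2 = (K : ℝ) ^ (2 * (M + 50)) := by
      rw [← Real.rpow_natCast, ← Real.rpow_mul hKp.le]
      congr 1
      push_cast
      ring
    have e4 : (K : ℝ) ^ δ * (K : ℝ) ^ (2 * (M + 50)) ≤ (K : ℝ) ^ (δ * N') := by
      rw [← Real.rpow_add hKp]
      refine Real.rpow_le_rpow_of_exponent_le hKr ?_
      have e5 : δ * (1 + 2 * (M + 50) / δ) ≤ δ * N' :=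
        mul_le_mul_of_nonneg_left hN' hδ.le
      have e6 : δ * (1 + 2 * (M + 50) / δ) = δ + 2 * (M + 50) := by
        field_simp
      linarith
    rw [e2]
    refine le_trans ?_ e4
    exact mul_le_mul hCP (e1.trans e3.le) (sq_nonneg _) hbp.le
  have hN'0 : N' ≠ 0 := by
    rintro rfl
    have e5 : 0 < 2 * (M + 50) / δ := by positivity
    rw [Nat.cast_zero] at hN'
    linarith
  have hfin : 1 + y ≤ (K : ℝ) ^ δ := le_of_pow_le_pow_left₀ hN'0 hbp.le hpow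
  linarith

/-- the constants -/
theorem consts (CM CT CN CP : ℝ) (hCM : 1 ≤ CM) (hCT : 1 ≤ CT) (hCN : 1 ≤ CN) (hCP : 1 ≤ CP) :
    ∃ C : ℝ, 4 ≤ C ∧ CM * (CT * CN) ≤ C ∧ CM * CN ≤ C ∧ CM ≤ C ∧ CP ≤ C := by
  have h1 : 1 ≤ CM * CT := one_le_mul_of_one_le_of_one_le hCM hCT
  have h2 : 1 ≤ CM * CT * CN := one_le_mul_of_one_le_of_one_le h1 hCN
  have h3 : 1 ≤ CM * CT * CN * CP := one_le_mul_of_one_le_of_one_le h2 hCP
  refine ⟨4 * (CM * CT * CN * CP), by linarith, ?_, ?_, ?_, ?_⟩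
  · have := mul_le_mul_of_nonneg_left hCP (by linarith : 0 ≤ CM * CT * CN)
    linarith [mul_assoc CM CT CN]
  · have e1 : 1 ≤ CM * CN := one_le_mul_of_one_le_of_one_le hCM hCN
    have e2 : CM * CN * 1 ≤ CM * CN * CT := mul_le_mul_of_nonneg_left hCT (by linarith)
    have := mul_le_mul_of_nonneg_left hCP (by linarith : 0 ≤ CM * CT * CN)
    have e3 : CM * CN * CT = CM * CT * CN := by ring
    linarith
  · have e1 : CM * 1 ≤ CM * (CT * CN * CP) := by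
      refine mul_le_mul_of_nonneg_left ?_ (by linarith)
      exact one_le_mul_of_one_le_of_one_le (one_le_mul_of_one_le_of_one_le hCT hCN) hCP
    have e3 : CM * (CT * CN * CP) = CM * CT * CN * CP := by ring
    linarith
  · have e2 : 1 * CP ≤ CM * CT * CN * CP := mul_le_mul_of_nonneg_right h2 (by linarith)
    linarith

theorem pf_GSC (hPAM : T_PAM) (hCMP : T_CMP) (hNFI : T_NFI) (hPTS : T_PTS) : T_GSC := by
  classical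
  obtain ⟨CM, hCM, hcomp, hlin, -, hpar⟩ := hCMP
  obtain ⟨CT, hCT, -, hball, hmax⟩ := hPTS
  refine ⟨8, by norm_num, ?_⟩
  intro L β δ M hL hβ hδ hδ1 hM
  obtain ⟨CN, hCN, -, hnear⟩ := hNFI δ hδ (by linarith)
  obtain ⟨N', hN'⟩ : ∃ N' : ℕ, 1 + 2 * (M + 50) / δ ≤ N' := ⟨_, Nat.le_ceil _⟩
  obtain ⟨N₀, hN₀⟩ := hPAM L N' β δ hL hβ hδ hδ1
  refine ⟨N₀, fun N hN => ?_⟩
  obtain ⟨CP, hCP, hpam⟩ := hN₀ N hN
  obtain ⟨C, hC4, hCMTN, hCMN, hCMC, hCPC⟩ := consts CM CT CN CP hCM hCT hCN hCP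
  refine ⟨C, by linarith, ?_⟩
  intro R A e H₀ D H a k G X w K n P Q Q₁ Wf V hR hA hCK hwK hup hD hG hX hSt hNd
  -- numbers
  have hK0 : K ≠ 0 := by
    rintro rfl
    rw [Nat.cast_zero, Real.zero_rpow hδ.ne'] at hCK
    linarith
  have hK1 : 1 ≤ K := Nat.one_le_iff_ne_zero.2 hK0
  have hKr : (1 : ℝ) ≤ K := by exact_mod_cast hK1
  have hKp : (0 : ℝ) < K := by linarith
  have hw1 : 1 ≤ w := hSt.w1
  have hwr : (1 : ℝ) ≤ w := by exact_mod_cast hw1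
  obtain ⟨b, hb⟩ : ∃ b : ℝ, b = (K : ℝ) ^ δ := ⟨_, rfl⟩
  have hb4 : 4 ≤ b := by rw [hb]; linarith
  have hCb : C ≤ b := by rw [hb]; exact hCK
  have hbp : 0 < b := by linarith
  have hbb : ((K : ℝ) ^ 2) ^ δ = b ^ 2 := by
    rw [hb, ← Real.rpow_natCast (K : ℝ) 2, ← Real.rpow_mul hKp.le, mul_comm,
      Real.rpow_mul hKp.le, Real.rpow_natCast]
  have hbinv : ((K : ℝ) ^ 2) ^ (-δ) = (b ^ 2)⁻¹ := by
    rw [Real.rpow_neg (by positivity), hbb]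
  have hb8 : ((K : ℝ) ^ 2) ^ (4 * δ) = b ^ 8 := by
    rw [mul_comm, Real.rpow_mul (by positivity), hbb]
    have : (b ^ 2) ^ (4 : ℝ) = (b ^ 2) ^ (4 : ℕ) := by
      rw [← Real.rpow_natCast]
      norm_num
    rw [this]
    ring
  have hK8 : (K : ℝ) ^ ((8 : ℝ) * δ) = b ^ 8 := by
    rw [mul_comm, Real.rpow_mul hKp.le, ← hb]
    rw [← Real.rpow_natCast]
    norm_num
  rw [hK8] at hD
  have hDr : D ^ (8 : ℝ) = D ^ 8 := by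
    rw [← Real.rpow_natCast]
    norm_num
  rw [hDr]
  have hb8' : 1 ≤ b ^ 8 := one_le_pow₀ (by linarith)
  have hCD : C ≤ D := by nlinarith
  have hbD : b ^ 8 ≤ D := by nlinarith
  have hD4 : 4 ≤ D := by linarith
  have hD1 : 1 ≤ D := by linarith
  have hD0 : 0 < D := by linarith
  have hb3D : b ^ 3 ≤ D := (pow_le_pow_right₀ (by linarith) (by norm_num)).trans hbD
  have hb4D : b ^ 4 ≤ D := (pow_le_pow_right₀ (by linarith) (by norm_num)).trans hbD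
  have hDpow : ∀ j : ℕ, j ≤ 8 → D ^ j ≤ D ^ 8 := fun j hj => pow_le_pow_right₀ hD1 hj
  have hsR : sR ((K : ℝ) ^ 2) = (K : ℝ)⁻¹ := by
    unfold sR
    rw [Real.sqrt_sq hKp.le]
  obtain ⟨nr, hnrd⟩ : ∃ nr : Pk 2 → Z 2 → Prop, ∀ W z, nr W z ↔ near ((K : ℝ) ^ 2) δ W z :=
    ⟨_, fun _ _ => Iff.rfl⟩
  have hnr : ∀ (W : Pk 2) (z : Z 2), nr W z ↔
      ‖(b ^ 2)⁻¹ • Lc K W.1 z - zc W.2‖ ≤ b ^ 2 := by
    intro W z
    rw [hnrd]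
    unfold near fc Lc
    rw [hsR, hbb, hbinv]
  have hnear' : ∀ (z : Z 2) (k : Fin 2 → ℤ) (S : Finset (Pk 2)), (∀ W ∈ S, W.1 = k ∧ nr W z) →
      (S.card : ℝ) ≤ CN * b ^ 8 := by
    intro z k S hS
    rw [← hb8]
    exact hnear ((K : ℝ) ^ 2) z k S (one_le_pow₀ hKr) fun W hW =>
      ⟨(hS W hW).1, (hnrd _ _).1 (hS W hW).2⟩
  have hball' : ∀ (x : Z 2) (Y : Finset (Z 2)), Sep Y → (∀ z ∈ Y, ‖z - x‖ ≤ D) →
      (Y.card : ℝ) ≤ CT * D ^ 4 := fun x Y h1 h2 => hball D x Y hD1 h1 h2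
  have haH : (K : ℝ) ^ (-50 : ℝ) * H ≤ a := hNd.a0
  have hHp : 0 < H := hSt.H0
  have hap : 0 < a := lt_of_lt_of_le (mul_pos (Real.rpow_pos_of_pos hKp _) hHp) haH
  have hTiKs : ∀ i ∈ Ti P, i.2 ∈ Ks 2 (w : ℝ)⁻¹ ∧ ∃ p ∈ P, p.1 = i.1 ∧ p.2.1 = i.2 := by
    intro i hi
    unfold Ti at hi
    obtain ⟨p, hp, rfl⟩ := Finset.mem_image.1 hi
    exact ⟨(hSt.pk p hp).1, p, hp, rfl, rfl⟩
  obtain ⟨Ω, hΩ⟩ : ∃ Ω : Finset Om2, Ω = (Ti P).sigma Wf := ⟨_, rfl⟩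
  have hmemΩ : ∀ ω : Om2, ω ∈ Ω ↔ ω.1 ∈ Ti P ∧ ω.2 ∈ Wf ω.1 := by
    intro ω
    rw [hΩ, Finset.mem_sigma]
  have hWK : ∀ ω ∈ Ω, ω.2.1 ∈ Ks 2 (K : ℝ)⁻¹ := fun ω hω =>
    (hNd.wf ω.1 ω.2 ((hmemΩ ω).1 hω).2).1
  have hpamx : ∀ ω : Om2, ∃ x : Z 2, ω ∈ Ω →
      (K : ℤ) • ω.1.2 + ω.2.1 ∈ Ks 2 ((w * K : ℕ) : ℝ)⁻¹ ∧
      a ≤ CP * ‖TF (Gc β (w * K) G ((K : ℤ) • ω.1.2 + ω.2.1)) x‖ ∧
      ‖(b ^ 2)⁻¹ • x - zc ω.2.2‖ ≤ b := by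
    intro ω
    by_cases hω : ω ∈ Ω
    · obtain ⟨hi1, hi2⟩ := (hmemΩ ω).1 hω
      obtain ⟨hWK, hal⟩ := hNd.wf ω.1 ω.2 hi2
      obtain ⟨hks, x, hx1, hx2⟩ := hpam R A a w K ω.1.2 ω.2 G hw1 hK1 hwK hA hap hG
        (hTiKs ω.1 hi1).1 hWK hal
      rw [hbinv] at hx2
      refine ⟨x, fun _ => ⟨hks, hx1, ?_⟩⟩
      rw [hb]
      exact pam_num K w N' A R a H M δ CP _ hKr hwr hA hR hδ hM hap hHp hN' haH hup
        (hCPC.trans hCK) (norm_nonneg _) (by rw [← hb]; exact hx2)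
    · exact ⟨0, fun h1 => absurd h1 hω⟩
  choose xw hxw using hpamx
  obtain ⟨P', f, hPsep, hfrom, hf⟩ := kids K Ω xw hmax
  obtain ⟨Θ, hΘ⟩ : ∃ Θ : Finset Th2, Θ = Q₁.sigma fun q =>
    (Wf (q.2.1, q.2.2.1)).filter fun W => near ((K : ℝ) ^ 2) δ W q.2.2.2 := ⟨_, rfl⟩
  have hmemΘ : ∀ θ : Th2, θ ∈ Θ ↔ θ.1 ∈ Q₁ ∧
      θ.2 ∈ Wf (θ.1.2.1, θ.1.2.2.1) ∧ nr θ.2 θ.1.2.2.2 := by
    intro θ
    rw [hΘ, Finset.mem_sigma, Finset.mem_filter, hnrd]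
  obtain ⟨om, hom1, hom2, hom3⟩ : ∃ om : Th2 → Om2, (∀ θ, (om θ).1.1 = θ.1.2.1) ∧
      (∀ θ, (om θ).1.2 = θ.1.2.2.1) ∧ ∀ θ, (om θ).2 = θ.2 :=
    ⟨fun θ => ⟨(θ.1.2.1, θ.1.2.2.1), θ.2⟩, fun _ => rfl, fun _ => rfl, fun _ => rfl⟩
  have hom : ∀ θ ∈ Θ, om θ ∈ Ω := by
    intro θ hθ
    obtain ⟨h4, h5, h6⟩ := (hmemΘ θ).1 hθ
    have h7 : (om θ).1 = (θ.1.2.1, θ.1.2.2.1) := Prod.ext (hom1 θ) (hom2 θ)
    refine (hmemΩ _).2 ⟨?_, ?_⟩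
    · rw [h7]
      unfold Ti
      exact Finset.mem_image.2 ⟨θ.1.2, (hSt.rel θ.1 (hNd.sub h4)).2.1, rfl⟩
    · rw [h7, hom3]
      exact h5
  obtain ⟨g, hg1, hg2⟩ : ∃ g : Th2 → Z 2 × Pq, (∀ θ, (g θ).1 = θ.1.1) ∧
      ∀ θ, (g θ).2 = f (om θ) := ⟨fun θ => (θ.1.1, f (om θ)), fun _ => rfl, fun _ => rfl⟩
  -- data of an element of Θ
  have hgd : ∀ θ ∈ Θ, (g θ).2 ∈ P' ∧ (g θ).2.1 = θ.1.2.1 ∧
      (g θ).2.2.1 = (K : ℤ) • θ.1.2.2.1 + θ.2.1 ∧ ‖xw (om θ) - (g θ).2.2.2‖ ≤ 1 := by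
    intro θ hθ
    obtain ⟨h4, h5, h6, h7⟩ := hf (om θ) (hom θ hθ)
    rw [hg2]
    rw [hom1] at h5
    rw [hom2, hom3] at h6
    exact ⟨h4, h5, h6, h7⟩
  obtain ⟨Q', hQ'⟩ : ∃ Q' : Finset (Z 2 × Pq), Q' = Θ.image g := ⟨_, rfl⟩
  have hQ'm : ∀ q' ∈ Q', ∃ θ ∈ Θ, g θ = q' := fun q' hq' => by
    rw [hQ'] at hq'
    exact Finset.mem_image.1 hq'
  have hWKθ : ∀ θ ∈ Θ, θ.2.1 ∈ Ks 2 (K : ℝ)⁻¹ := fun θ hθ => by
    have := hWK (om θ) (hom θ hθ)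
    rw [hom3] at this
    exact this
  refine ⟨P', Q', ?_, hPsep, ?_, ?_, ?_, ?_, ?_, ?_, ?_⟩
  · -- amplitudes
    intro p hp
    obtain ⟨ω, hω, h4, h5, h6⟩ := hfrom p hp
    obtain ⟨h9, h10, -⟩ := hxw ω hω
    rw [← h5] at h9 h10
    rw [h6] at h10
    refine ⟨h9, ?_⟩
    rw [div_le_iff₀ (by linarith)]
    refine h10.trans ?_
    rw [mul_comm]
    exact mul_le_mul_of_nonneg_left hCPC (norm_nonneg _)
  · -- tags
    intro κ'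
    obtain ⟨Sg, hSg⟩ : ∃ Sg : Finset Tq, Sg = (Ti P).filter
      fun i => ∃ l ∈ Ks 2 (K : ℝ)⁻¹, κ' = (K : ℤ) • i.2 + l := ⟨_, rfl⟩
    have hSgm : ∀ i : Tq, i ∈ Sg ↔ i ∈ Ti P ∧ ∃ l ∈ Ks 2 (K : ℝ)⁻¹, κ' = (K : ℤ) • i.2 + l :=
      fun i => by rw [hSg, Finset.mem_filter]
    have h4 : ((P'.filter fun p => p.2.1 = κ').image fun p => p.1) ⊆ Sg.image fun i => i.1 := by
      intro t ht
      obtain ⟨p, hp, rfl⟩ := Finset.mem_image.1 ht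
      obtain ⟨hp1, hp2⟩ := Finset.mem_filter.1 hp
      obtain ⟨ω, hω, h5, h6, -⟩ := hfrom p hp1
      exact Finset.mem_image.2 ⟨ω.1, (hSgm _).2 ⟨((hmemΩ ω).1 hω).1, ω.2.1,
        hWK ω hω, hp2.symm.trans h6⟩, h5⟩
    have h5 : (Sg.card : ℝ) ≤ CM * D := by
      refine card_fib Sg (fun i => i.2) (Sg.image fun i => i.2) D CM hD0.le
        (fun i hi => Finset.mem_image_of_mem _ hi) ?_ ?_
      · refine hpar w K κ' _ hw1 hK1 fun κ hκ => ?_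
        obtain ⟨i, hi, rfl⟩ := Finset.mem_image.1 hκ
        exact ((hSgm _).1 hi).2
      · intro κ _
        refine le_trans ?_ (hSt.tg κ)
        have h6 : (Sg.filter fun i => i.2 = κ).card ≤
            ((P.filter fun p => p.2.1 = κ).image fun p => p.1).card := by
          refine Finset.card_le_card_of_injOn (fun i => i.1) ?_ ?_
          · intro i hi
            obtain ⟨hi1, hi2⟩ := Finset.mem_filter.1 (Finset.mem_coe.1 hi)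
            obtain ⟨-, p, hp, hp1, hp2⟩ := hTiKs i ((hSgm _).1 hi1).1
            exact Finset.mem_coe.2 (Finset.mem_image.2 ⟨p, Finset.mem_filter.2
              ⟨hp, hp2.trans hi2⟩, hp1⟩)
          · intro i hi i' hi' he
            obtain ⟨-, hi2⟩ := Finset.mem_filter.1 (Finset.mem_coe.1 hi)
            obtain ⟨-, hi2'⟩ := Finset.mem_filter.1 (Finset.mem_coe.1 hi')
            exact Prod.ext he (hi2.trans hi2'.symm)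
        exact_mod_cast h6
    have h6 : (((P'.filter fun p => p.2.1 = κ').image fun p => p.1).card : ℝ) ≤ Sg.card := by
      exact_mod_cast (Finset.card_le_card h4).trans Finset.card_image_le
    have h7 : CM * D ≤ D ^ 2 := by nlinarith
    exact (h6.trans (h5.trans h7)).trans (hDpow 2 (by norm_num))
  · -- the relation
    intro q hq
    obtain ⟨θ, hθ, rfl⟩ := hQ'm q hq
    obtain ⟨h4, h5, h6⟩ := (hmemΘ θ).1 hθ
    obtain ⟨h7, h8, h9⟩ := hSt.rel θ.1 (hNd.sub h4)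
    obtain ⟨h10, h11, h12, h13⟩ := hgd θ hθ
    refine ⟨by rw [hg1]; exact h7, h10, ?_⟩
    have hWk := hWKθ θ hθ
    rw [h12, hg1, ← (hcomp w K θ.1.2.2.1 θ.2.1 θ.1.1 hw1 hK1).1]
    obtain ⟨-, -, h14⟩ := hxw (om θ) (hom θ hθ)
    rw [hom3] at h14
    rw [hnr] at h6
    obtain ⟨u, hu⟩ : ∃ u, u = Lc w θ.1.2.2.1 θ.1.1 := ⟨_, rfl⟩
    rw [← hu] at h9 ⊢
    have e0 : Lo (ctr (K : ℝ)⁻¹ θ.2.1) (K : ℝ)⁻¹ u = Lc K θ.2.1 u := rfl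
    rw [e0]
    have e1 : ‖Lc K θ.2.1 u - Lc K θ.2.1 θ.1.2.2.2‖ ≤ CM * D := by
      obtain ⟨l1, l2, -⟩ := hlin K θ.2.1 u θ.1.2.2.2 hK1 hWk
      rw [← l1]
      obtain ⟨-, l3, -⟩ := hlin K θ.2.1 (u - θ.1.2.2.2) θ.1.2.2.2 hK1 hWk
      exact l3.trans (mul_le_mul_of_nonneg_left h9 (by linarith))
    have e6 := dist_kid b CM D K hbp θ.2 u θ.1.2.2.2 (xw (om θ)) (g θ).2.2.2 e1 h6 h14 h13
    refine e6.trans (le_trans ?_ (hDpow 3 (by norm_num)))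
    have e7 : CM * D ≤ D * D := mul_le_mul_of_nonneg_right (hCMC.trans hCD) hD0.le
    have e8 : 4 * D ^ 2 ≤ D * D ^ 2 := mul_le_mul_of_nonneg_right hD4 (sq_nonneg D)
    nlinarith
  · -- number of incidences
    have h4 : k * Q₁.card ≤ (Θ.card : ℝ) := by
      rw [hΘ, Finset.card_sigma]
      push_cast
      calc k * (Q₁.card : ℝ) = ∑ _q ∈ Q₁, k := by rw [Finset.sum_const, nsmul_eq_mul, mul_comm]
        _ ≤ _ := Finset.sum_le_sum fun q hq => hNd.kl q hq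
    refine h4.trans ?_
    rw [mul_comm]
    refine card_fib Θ g Q' (D ^ 8) _ (by positivity)
      (fun θ hθ => by rw [hQ']; exact Finset.mem_image_of_mem _ hθ) le_rfl ?_
    intro q' _
    obtain ⟨F, hF⟩ : ∃ F, F = Θ.filter fun θ => g θ = q' := ⟨_, rfl⟩
    have hFm : ∀ θ ∈ F, θ ∈ Θ ∧ g θ = q' := by
      intro θ hθ
      rw [hF] at hθ
      exact Finset.mem_filter.1 hθ
    rw [← hF]
    have h5 : (F.card : ℝ) ≤ CM * (CT * D ^ 4 * (CN * b ^ 8)) := by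
      refine fib1 CM CT CN D (b ^ 8) K nr (Lc w) hD1 (by linarith) (by linarith)
        (by positivity) F q'.1 q'.2.1 q'.2.2.1 ?_ ?_ ?_ ?_ ?_ ?_ ?_ ?_ hball' hnear'
      · intro θ hθ
        obtain ⟨h6, h7⟩ := hFm θ hθ
        rw [← h7, hg1]
      · intro θ hθ
        obtain ⟨h6, h7⟩ := hFm θ hθ
        rw [← h7]
        exact (hgd θ h6).2.1.symm
      · intro θ hθ
        obtain ⟨h6, h7⟩ := hFm θ hθ
        rw [← h7]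
        exact (hgd θ h6).2.2.1
      · intro θ hθ
        exact ((hmemΘ θ).1 (hFm θ hθ).1).2.2
      · intro θ hθ
        exact hWKθ θ (hFm θ hθ).1
      · intro θ hθ
        exact (hSt.rel θ.1 (hNd.sub ((hmemΘ θ).1 (hFm θ hθ).1).1)).2.2
      · intro θ hθ θ' hθ' h8 h9 h10
        exact hSt.sep θ.1.2 (hSt.rel θ.1 (hNd.sub ((hmemΘ θ).1 (hFm θ hθ).1).1)).2.1 θ'.1.2
          (hSt.rel θ'.1 (hNd.sub ((hmemΘ θ').1 (hFm θ' hθ').1).1)).2.1 h8 h9 h10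
      · intro J hJ
        exact hpar w K q'.2.2.1 J hw1 hK1 hJ
    refine h5.trans (le_trans ?_ (hDpow 5 (by norm_num)))
    have h6 : CM * (CT * D ^ 4 * (CN * b ^ 8)) = (CM * (CT * CN) * b ^ 8) * D ^ 4 := by ring
    rw [h6]
    have h7 : CM * (CT * CN) * b ^ 8 ≤ D :=
      (mul_le_mul_of_nonneg_right hCMTN (by positivity)).trans hD
    calc (CM * (CT * CN) * b ^ 8) * D ^ 4 ≤ D * D ^ 4 :=
          mul_le_mul_of_nonneg_right h7 (by positivity)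
      _ = D ^ 5 := by ring
  · -- number of planks
    have h4 : ∑ i ∈ Ti P, ((Wf i).card : ℝ) = (Ω.card : ℝ) := by
      rw [hΩ, Finset.card_sigma]
      push_cast
      rfl
    rw [h4, mul_comm]
    refine card_fib Ω f P' (D ^ 8) _ (by positivity)
      (fun ω hω => (hf ω hω).1) le_rfl ?_
    intro p' _
    obtain ⟨F, hF⟩ : ∃ F, F = Ω.filter fun ω => f ω = p' := ⟨_, rfl⟩
    have hFm : ∀ ω ∈ F, ω ∈ Ω ∧ f ω = p' := by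
      intro ω hω
      rw [hF] at hω
      exact Finset.mem_filter.1 hω
    rw [← hF]
    have h5 : (F.card : ℝ) ≤ CM * (CN * b ^ 8) := by
      refine fib2 CM CN (b ^ 8) K nr (by linarith) (by positivity) F p'.1 p'.2.1 ?_ ?_ ?_ ?_ ?_
        hnear'
      · intro ω hω
        obtain ⟨h6, h7⟩ := hFm ω hω
        rw [← h7]
        exact (hf ω h6).2.1.symm
      · intro ω hω
        obtain ⟨h6, h7⟩ := hFm ω hω
        rw [← h7]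
        exact (hf ω h6).2.2.1
      · intro ω₀ hω₀
        obtain ⟨-, -, -, ⟨y, hy⟩, -⟩ := hlin K ω₀.2.1 p'.2.2 0 hK1 (hWK ω₀ (hFm ω₀ hω₀).1)
        refine ⟨y, fun ω hω he => ?_⟩
        obtain ⟨h6, h7⟩ := hFm ω hω
        rw [hnr, he, hy]
        have h8 := (hf ω h6).2.2.2
        rw [h7] at h8
        exact near_kid b (by linarith) _ _ _ (hxw ω h6).2.2 h8
      · intro ω hω
        exact hWK ω (hFm ω hω).1
      · intro J hJ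
        exact hpar w K p'.2.1 J hw1 hK1 hJ
    refine h5.trans (le_trans ?_ (hDpow 1 (by norm_num)))
    rw [pow_one]
    calc CM * (CN * b ^ 8) = (CM * CN) * b ^ 8 := by ring
      _ ≤ C * b ^ 8 := mul_le_mul_of_nonneg_right hCMN (by positivity)
      _ ≤ D := hD
  · -- parents of incidences
    intro q' hq'
    obtain ⟨θ, hθ, rfl⟩ := hQ'm q' hq'
    obtain ⟨h4, h5, h6⟩ := (hmemΘ θ).1 hθ
    obtain ⟨-, h7, h8, -⟩ := hgd θ hθ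
    refine ⟨θ.1, hNd.sub h4, (hg1 θ).symm, h7.symm, θ.2.1, hWKθ θ hθ, h8, ?_⟩
    exact hNd.cr θ.1 h4 θ.2 h5 ((hnrd _ _).1 h6)
  · -- parents of planks
    intro p' hp'
    obtain ⟨ω, hω, h4, h5, -⟩ := hfrom p' hp'
    obtain ⟨-, p, hp, h6, h7⟩ := hTiKs ω.1 ((hmemΩ ω).1 hω).1
    exact ⟨p, hp, h6.trans h4, ω.2.1, hWK ω hω, by rw [h7, h5]⟩
  · -- multiplicities
    intro z t
    obtain ⟨F, hF⟩ : ∃ F, F = Θ.filter fun θ => θ.1.1 = z ∧ θ.1.2.1 = t := ⟨_, rfl⟩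
    have hFm : ∀ θ, θ ∈ F ↔ θ ∈ Θ ∧ θ.1.1 = z ∧ θ.1.2.1 = t := fun θ => by
      rw [hF, Finset.mem_filter]
    have h4 : (Qzt Q' z t) ⊆ F.image g := by
      intro q' hq'
      unfold Qzt at hq'
      obtain ⟨h5, h6, h7⟩ := Finset.mem_filter.1 hq'
      obtain ⟨θ, hθ, rfl⟩ := hQ'm q' h5
      refine Finset.mem_image.2 ⟨θ, (hFm θ).2 ⟨hθ, (hg1 θ).symm.trans h6, ?_⟩, rfl⟩
      exact (hgd θ hθ).2.1.symm.trans h7
    have h5 : ((Qzt Q' z t).card : ℝ) ≤ F.card := by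
      exact_mod_cast (Finset.card_le_card h4).trans Finset.card_image_le
    have h6 : (F.card : ℝ) ≤ (Qzt Q z t).card * (D * K) := by
      refine card_fib F (fun θ => θ.1) (Qzt Q z t) _ _ (by positivity) ?_ le_rfl ?_
      · intro θ hθ
        obtain ⟨h7, h8, h9⟩ := (hFm θ).1 hθ
        unfold Qzt
        exact Finset.mem_filter.2 ⟨hNd.sub ((hmemΘ θ).1 h7).1, h8, h9⟩
      · intro q _
        obtain ⟨F1, hF1⟩ : ∃ F1, F1 = F.filter fun θ => θ.1 = q := ⟨_, rfl⟩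
        have m1 : ∀ θ ∈ F1, θ ∈ Θ ∧ θ.1 = q := fun θ hθ => by
          rw [hF1] at hθ
          exact ⟨((hFm θ).1 (Finset.mem_filter.1 hθ).1).1, (Finset.mem_filter.1 hθ).2⟩
        rw [← hF1]
        rcases Finset.eq_empty_or_nonempty F1 with he | ⟨θ₀, hθ₀⟩
        · rw [he, Finset.card_empty, Nat.cast_zero]
          positivity
        · obtain ⟨h7, h8⟩ := m1 θ₀ hθ₀
          have h9 := ((hmemΘ θ₀).1 h7).1
          rw [h8] at h9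
          refine le_trans ?_ (hNd.ku q h9)
          refine card_inj F1 (fun θ => θ.2) _ ?_ ?_
          · intro θ hθ θ' hθ' he
            have b2 := (m1 θ (Finset.mem_coe.1 hθ)).2
            have b2' := (m1 θ' (Finset.mem_coe.1 hθ')).2
            exact Sigma.ext (b2.trans b2'.symm) (heq_of_eq he)
          · intro T hT
            have h10 : T ⊆ (Wf (q.2.1, q.2.2.1)).filter
                fun W => near ((K : ℝ) ^ 2) δ W q.2.2.2 := by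
              intro W hW
              obtain ⟨θ, hθ, rfl⟩ := hT W hW
              obtain ⟨b1, b2⟩ := m1 θ hθ
              obtain ⟨-, b3, b4⟩ := (hmemΘ θ).1 b1
              rw [b2] at b3 b4
              exact Finset.mem_filter.2 ⟨b3, (hnrd _ _).1 b4⟩
            exact_mod_cast Finset.card_le_card h10
    refine h5.trans (h6.trans ?_)
    have h7 : D ≤ D ^ 8 := by
      have := hDpow 1 (by norm_num)
      rw [pow_one] at this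
      exact this
    have h8 : (0 : ℝ) ≤ (Qzt Q z t).card := Nat.cast_nonneg _
    have h9 : ((Qzt Q z t).card : ℝ) * (D * K) = D * (K * (Qzt Q z t).card) := by ring
    rw [h9, mul_assoc]
    exact mul_le_mul_of_nonneg_right h7 (by positivity)

end Pool.Agent.H98.D3
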