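import Pool.Agent.H81.D3.Targets

/-!
# Numerical lemmas for the row CHS of d3n_modules (the row itself: Pool/Agent/H81/D3/CHS.lean)
-/

set_option autoImplicit false

namespace Pool.Agent.H98.D3

open MeasureTheory Set
open Pool.Agent.H83.G
open Pool.Agent.H81.D3
open scoped ENNReal NNReal RealInnerProductSpace

theorem lev_up (a w H H₀ D : ℝ) (hw : 0 < w) (hH : 0 < H) (hH0 : 0 < H₀)
    (h : H₀ ^ 2 ≤ D * (H ^ 2 * w)) :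
    (a / (w ^ 2 * H)) ^ 2 * w ^ 3 ≤ (a / H₀) ^ 2 * D := by
  rw [div_pow, div_pow, div_mul_eq_mul_div, div_mul_eq_mul_div,
    div_le_div_iff₀ (by positivity) (by positivity)]
  have h1 := mul_le_mul_of_nonneg_left h (by positivity : 0 ≤ a ^ 2 * w ^ 3)
  calc a ^ 2 * w ^ 3 * H₀ ^ 2 ≤ a ^ 2 * w ^ 3 * (D * (H ^ 2 * w)) := h1
    _ = a ^ 2 * D * (w ^ 2 * H) ^ 2 := by ring

theorem lev_lo (a w H H₀ D : ℝ) (hw : 0 < w) (hH : 0 < H) (hH0 : 0 < H₀)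
    (h : H ^ 2 * w ≤ D * H₀ ^ 2) :
    (a / H₀) ^ 2 ≤ (a / (w ^ 2 * H)) ^ 2 * w ^ 3 * D := by
  have e : (a / (w ^ 2 * H)) ^ 2 * w ^ 3 * D = a ^ 2 * w ^ 3 * D / (w ^ 2 * H) ^ 2 := by
    rw [div_pow]
    ring
  rw [e, div_pow, div_le_div_iff₀ (by positivity) (by positivity)]
  have h1 := mul_le_mul_of_nonneg_left h (by positivity : 0 ≤ a ^ 2 * w ^ 3)
  calc a ^ 2 * (w ^ 2 * H) ^ 2 = a ^ 2 * w ^ 3 * (H ^ 2 * w) := by ring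
    _ ≤ a ^ 2 * w ^ 3 * (D * H₀ ^ 2) := h1
    _ = a ^ 2 * w ^ 3 * D * H₀ ^ 2 := by ring

/-- the choice of `K` and the elementary inequalities -/
theorem chs_num (ν θ Λ Lw Rw T : ℝ) (hθ : 0 < θ) (hθ1 : θ ≤ 1 / 100) (hν : 0 < ν)
    (hΛ1 : 1 ≤ Λ) (hx : 8 ≤ Λ ^ (ν * θ / 20)) (hT : T ≤ Λ ^ (ν * θ / 20))
    (hLw : Λ ^ ν ≤ Lw) (hRw : Λ ^ (2 * ν) ≤ Rw) (hLu : Lw ≤ Λ ^ (2 : ℝ)) :
    ∃ K : ℕ, Λ ^ (19 * (ν * θ / 20)) ≤ K ∧ (K : ℝ) ≤ Lw ^ θ ∧ (K : ℝ) ^ 2 * Λ ^ ν ≤ Rw ∧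
      (Lw ^ θ ≤ 2 * K ∨ Rw ≤ 4 * ((K : ℝ) ^ 2 * Λ ^ ν)) ∧ (K : ℝ) ≤ Λ ∧
      T ≤ Lw ^ (1 / 2 : ℝ) ∧ 8 * Λ ^ (ν * θ / 20) ≤ Lw ^ θ ∧ 4 * Λ ^ ν ≤ Λ ^ (2 * ν) := by
  have hΛ0 : 0 < Λ := by linarith
  have hνθ : 0 < ν * θ := mul_pos hν hθ
  have hνθ1 : ν * θ ≤ ν * (1 / 100) := mul_le_mul_of_nonneg_left hθ1 hν.le
  have hLν : 0 < Λ ^ ν := Real.rpow_pos_of_pos hΛ0 _
  have hLν1 : 1 ≤ Λ ^ ν := Real.one_le_rpow hΛ1 hν.le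
  have hLw0 : 0 < Lw := lt_of_lt_of_le hLν hLw
  have hLw1 : 1 ≤ Lw := hLν1.trans hLw
  have hRw0 : 0 < Rw := lt_of_lt_of_le (Real.rpow_pos_of_pos hΛ0 _) hRw
  have hmon : ∀ a b : ℝ, a ≤ b → Λ ^ a ≤ Λ ^ b := fun a b h =>
    Real.rpow_le_rpow_of_exponent_le hΛ1 h
  have hx0 : 0 < Λ ^ (ν * θ / 20) := by linarith
  have h20 : Λ ^ (ν * θ) = Λ ^ (19 * (ν * θ / 20)) * Λ ^ (ν * θ / 20) := by
    rw [← Real.rpow_add hΛ0]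
    congr 1
    ring
  have h19 : 1 ≤ Λ ^ (19 * (ν * θ / 20)) := Real.one_le_rpow hΛ1 (by positivity)
  have h8 : 8 * Λ ^ (19 * (ν * θ / 20)) ≤ Λ ^ (ν * θ) := by
    rw [h20, mul_comm]
    exact mul_le_mul_of_nonneg_left hx (by linarith)
  have ha1 : Λ ^ (ν * θ) ≤ Lw ^ θ := by
    rw [Real.rpow_mul hΛ0.le]
    exact Real.rpow_le_rpow hLν.le hLw hθ.le
  obtain ⟨s, hs⟩ : ∃ s, s = Real.sqrt (Rw / Λ ^ ν) := ⟨_, rfl⟩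
  have hs2 : s ^ 2 = Rw / Λ ^ ν := by
    rw [hs, Real.sq_sqrt (by positivity)]
  have hs0 : 0 ≤ s := by rw [hs]; exact Real.sqrt_nonneg _
  have ha2 : Λ ^ (ν * θ) ≤ s := by
    have h1 : (Λ ^ (ν * θ)) ^ 2 ≤ s ^ 2 := by
      rw [hs2, le_div_iff₀ hLν]
      have h2 : (Λ ^ (ν * θ)) ^ 2 * Λ ^ ν = Λ ^ (2 * (ν * θ) + ν) := by
        rw [Real.rpow_add hΛ0, ← Real.rpow_natCast, ← Real.rpow_mul hΛ0.le]
        congr 2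
        push_cast
        ring
      rw [h2]
      refine le_trans (hmon _ _ ?_) hRw
      linarith
    exact le_of_sq_le_sq h1 hs0
  obtain ⟨m, hm⟩ : ∃ m, m = min (Lw ^ θ) s := ⟨_, rfl⟩
  have hm1 : Λ ^ (ν * θ) ≤ m := by rw [hm]; exact le_min ha1 ha2
  have hm2 : 2 ≤ m := by linarith
  have hK1 : (⌊m⌋₊ : ℝ) ≤ m := Nat.floor_le (by linarith)
  have hK2 : m ≤ 2 * (⌊m⌋₊ : ℝ) := by
    have := Nat.lt_floor_add_one m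
    linarith
  have hmL : m ≤ Lw ^ θ := by rw [hm]; exact min_le_left _ _
  have hms : m ≤ s := by rw [hm]; exact min_le_right _ _
  have hK0 : (0 : ℝ) ≤ (⌊m⌋₊ : ℝ) := Nat.cast_nonneg _
  refine ⟨⌊m⌋₊, by linarith, hK1.trans hmL, ?_, ?_, ?_, ?_, ?_, ?_⟩
  · have h1 : (⌊m⌋₊ : ℝ) ^ 2 ≤ s ^ 2 := pow_le_pow_left₀ hK0 (hK1.trans hms) 2
    rw [hs2, le_div_iff₀ hLν] at h1
    exact h1
  · rcases min_choice (Lw ^ θ) s with h | h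
    · left
      rw [← h, ← hm]
      exact hK2
    · right
      rw [← hm] at h
      rw [h] at hK2
      have h1 : s ^ 2 ≤ (2 * (⌊m⌋₊ : ℝ)) ^ 2 := by
        rw [h]
        exact pow_le_pow_left₀ hs0 hK2 2
      rw [hs2, div_le_iff₀ hLν] at h1
      linarith
  · refine (hK1.trans hmL).trans ?_
    have h1 : Lw ^ θ ≤ (Λ ^ (2 : ℝ)) ^ θ := Real.rpow_le_rpow hLw0.le hLu hθ.le
    rw [← Real.rpow_mul hΛ0.le] at h1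
    refine h1.trans ?_
    calc Λ ^ (2 * θ) ≤ Λ ^ (1 : ℝ) := hmon _ _ (by linarith)
      _ = Λ := Real.rpow_one _
  · refine hT.trans ?_
    calc Λ ^ (ν * θ / 20) ≤ Λ ^ (ν * (1 / 2)) := hmon _ _ (by linarith)
      _ = (Λ ^ ν) ^ (1 / 2 : ℝ) := Real.rpow_mul hΛ0.le _ _
      _ ≤ Lw ^ (1 / 2 : ℝ) := Real.rpow_le_rpow hLν.le hLw (by norm_num)
  · refine le_trans ?_ ha1
    rw [h20]
    have h1 : Λ ^ (ν * θ / 20) ≤ Λ ^ (19 * (ν * θ / 20)) := hmon _ _ (by linarith)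
    exact mul_le_mul (by linarith) le_rfl hx0.le (by linarith)
  · have h1 : Λ ^ (2 * ν) = Λ ^ ν * Λ ^ ν := by
      rw [← Real.rpow_add hΛ0]
      congr 1
      ring
    rw [h1]
    refine mul_le_mul_of_nonneg_right ?_ hLν.le
    calc (4 : ℝ) ≤ Λ ^ (ν * θ / 20) := by linarith
      _ ≤ Λ ^ ν := hmon _ _ (by linarith)

end Pool.Agent.H98.D3
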